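import Mathlib
import Pool.Agent.H.MP_0c1da6_nt.B
set_option autoImplicit false

namespace Pool.Agent.Results.MP_0c1da6_nt.Yes
open Filter Topology

/-- A set of positive integers with no three-term geometric progression of rational ratio. -/
def GPFree (A : Set ℕ) : Prop :=
  (∀ n ∈ A, 1 ≤ n) ∧ ∀ a ∈ A, ∀ b ∈ A, ∀ c ∈ A, a < b → b < c → b ^ 2 ≠ a * c

/-- A set of positive integers with no progression `a, a k, a k ^ 2` of integer ratio `k ≥ 2`. -/
def IntGPFree (A : Set ℕ) : Prop :=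
  (∀ n ∈ A, 1 ≤ n) ∧ ∀ a k : ℕ, 2 ≤ k → ¬ (a ∈ A ∧ a * k ∈ A ∧ a * k ^ 2 ∈ A)

/-- `A` has asymptotic density `d`. -/
def HasDensity (A : Set ℕ) (d : ℝ) : Prop :=
  Tendsto (fun N : ℕ => ((A ∩ Set.Icc 1 N).ncard : ℝ) / N) atTop (𝓝 d)

noncomputable def alpha : ℝ := sSup {d | ∃ A, GPFree A ∧ HasDensity A d}

noncomputable def beta : ℝ := sSup {d | ∃ A, IntGPFree A ∧ HasDensity A d}

open Pool.Agent.H.MP_0c1da6_nt

theorem dens_iff (A : Set ℕ) (d : ℝ) :
    HasDensity A d ↔ Tendsto (fun N : ℕ => (cnt A N : ℝ) / N) atTop (𝓝 d) := by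
  have : ∀ N, (A ∩ Set.Icc 1 N).ncard = cnt A N := by
    intro N
    rw [cnt, ← Set.ncard_coe_finset]
    congr 1
    ext n
    simp only [Set.mem_inter_iff, Set.mem_Icc, Finset.coe_filter, Finset.mem_Icc,
      Set.mem_ofPred_eq]
    tauto
  simp only [HasDensity, this]

theorem dens_empty : HasDensity ∅ 0 := by
  simp [HasDensity]

theorem result : alpha < beta := by
  classical
  obtain ⟨c, hc, H⟩ := main
  have hb : BddAbove {d | ∃ A, IntGPFree A ∧ HasDensity A d} := by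
    refine ⟨1, ?_⟩
    rintro d ⟨A, -, hd⟩
    refine le_of_tendsto' ((dens_iff A d).1 hd) fun N => div_le_one_of_le₀ ?_ (by positivity)
    have := Finset.card_filter_le (Finset.Icc 1 N) fun n => n ∈ A
    rw [Nat.card_Icc, Nat.add_sub_cancel] at this
    exact_mod_cast this
  have h0 : 0 ≤ beta := le_csSup hb ⟨∅, ⟨by simp, by simp⟩, dens_empty⟩
  have : alpha ≤ beta - c := by
    refine csSup_le ⟨0, ∅, ⟨by simp, by simp⟩, dens_empty⟩ ?_
    rintro d ⟨A, hA, hd⟩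
    refine H beta h0 (fun B e b1 b2 b3 => le_csSup hb ⟨B, ⟨b1, fun a k hk h => ?_⟩,
      (dens_iff B e).2 b3⟩) A d hA.2 ((dens_iff A d).1 hd)
    exact b2 a k hk h.1 h.2.1 h.2.2
  linarith

end Pool.Agent.Results.MP_0c1da6_nt.Yes
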